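import Pool.Agent.Work.MP_db9399_exp.Interface

/-!
# MP_db9399, THEOREM EXP, block CTX (helper23): the context exists
-/

set_option autoImplicit false

namespace Pool.Agent.Work.MP_db9399_exp.helper23

open Finset Classical
open Pool.Agent.Work.MP_db9399_all (nb mis)
open Pool.Agent.Work.MP_db9399_qr (cov PEC ins sd PMat W0 imb ZQ Good)
open Pool.Agent.Work.MP_db9399_px (BE NR)

universe u

/-! ## Numbers -/

section numbers

/-- the numbers -/
theorem nums (m r : ℕ) (κ dl D : ℝ) (hκ0 : 0 < κ) (hκ1 : κ ≤ 1)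
    (hA : 200 ≤ κ * (2 * m + 1)) (hA9 : 10 ^ 9 ≤ 2 * (m : ℝ) + 1)
    (hB : 100 * (2 * (m : ℝ) + 1) ^ 7 ≤ 2 * r + 1) (hdl0 : 0 < dl)
    (hdl : dl * (10 ^ 6 * (2 * (m : ℝ) + 1) ^ 12 * (2 * (r : ℝ) + 1) ^ 2) ≤ 1)
    (hD : 10 ^ 6 * (2 * (m : ℝ) + 1) ^ 20 * (2 * (r : ℝ) + 1) ^ 3 ≤ dl * D) :
    ∃ u mP Δ w pL : ℕ,
      (1 - 1 / (2 * (m : ℝ) + 1) ^ 7) * D ≤
        2 * (2 * (m : ℝ) + 1) * (2 * (r : ℝ) + 1) * (2 * m * u) ∧
      2 * (2 * (m : ℝ) + 1) * (2 * (r : ℝ) + 1) * (2 * m * u) ≤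
        (1 - 1 / (2 * (2 * (m : ℝ) + 1) ^ 7)) * D ∧
      4 * D / (2 * m + 1) ^ 7 + 2 ≤ (mP : ℝ) ∧
      (2 * (m : ℝ) + 1) ^ 4 * mP ≤ 5 * D / (2 * m + 1) ^ 3 ∧
      (1 / (2 * (r : ℝ) + 1) + 2 * (2 * (m : ℝ) + 1) * dl) * D ≤ Δ ∧
      (Δ : ℝ) ≤ (1 + κ / 10) * (D / (2 * r + 1)) ∧
      (1 - κ) * Δ ≤ (2 * (m : ℝ) + 1) ^ 2 * (2 * (r : ℝ) + 1) * w ∧
      ((r : ℝ) + 1) * w ≤ u ∧
      (2 * (m : ℝ) + 1) ^ 2 * (2 * (r : ℝ) + 1) ^ 2 * w ≤ 3 / 2 * D ∧
      (1 - κ) * Δ ≤ pL ∧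
      (2 * (m : ℝ) + 1) ^ 2 * (2 * (r : ℝ) + 1) * u + (2 * (m : ℝ) + 1) ^ 4 * mP + r * pL ≤
        D := by
  obtain ⟨A, hAdef⟩ : ∃ A : ℝ, A = 2 * (m : ℝ) + 1 := ⟨_, rfl⟩
  obtain ⟨B, hBdef⟩ : ∃ B : ℝ, B = 2 * (r : ℝ) + 1 := ⟨_, rfl⟩
  rw [← hAdef] at hA hA9 hB hdl hD
  rw [← hBdef] at hB hdl hD
  simp only [← hAdef, ← hBdef]
  have hm : (m : ℝ) = (A - 1) / 2 := by rw [hAdef]; ring
  have hr : (r : ℝ) = (B - 1) / 2 := by rw [hBdef]; ring
  have A1 : 1 ≤ A := le_trans (by norm_num) hA9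
  have A0 : 0 < A := by linarith
  have B1 : 1 ≤ B := by
    have : (1 : ℝ) ≤ A ^ 7 := one_le_pow₀ A1
    linarith
  have B0 : 0 < B := by linarith
  have m0 : (0 : ℝ) < m := by rw [hm]; linarith
  have hAB : ∀ i j : ℕ, i ≤ 20 → j ≤ 3 → 10 ^ 6 * (A ^ i * B ^ j) ≤ dl * D := by
    intro i j hi hj
    have h1 : A ^ i ≤ A ^ 20 := pow_le_pow_right₀ A1 hi
    have h2 : B ^ j ≤ B ^ 3 := pow_le_pow_right₀ B1 hj
    have h3 : A ^ i * B ^ j ≤ A ^ 20 * B ^ 3 := mul_le_mul h1 h2 (by positivity) (by positivity)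
    calc 10 ^ 6 * (A ^ i * B ^ j) ≤ 10 ^ 6 * (A ^ 20 * B ^ 3) := by linarith
      _ = 10 ^ 6 * A ^ 20 * B ^ 3 := by ring
      _ ≤ dl * D := hD
  have D0 : 0 < D := by
    have h1 := hAB 0 0 (by norm_num) (by norm_num)
    by_contra h
    have : dl * D ≤ 0 := mul_nonpos_of_nonneg_of_nonpos hdl0.le (not_lt.1 h)
    norm_num at h1
    linarith
  have hdAB : ∀ i j : ℕ, i ≤ 12 → j ≤ 2 → dl * (10 ^ 6 * (A ^ i * B ^ j)) ≤ 1 := by
    intro i j hi hj
    have h1 : A ^ i ≤ A ^ 12 := pow_le_pow_right₀ A1 hi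
    have h2 : B ^ j ≤ B ^ 2 := pow_le_pow_right₀ B1 hj
    have h3 : A ^ i * B ^ j ≤ A ^ 12 * B ^ 2 := mul_le_mul h1 h2 (by positivity) (by positivity)
    refine le_trans (mul_le_mul_of_nonneg_left ?_ hdl0.le) hdl
    calc 10 ^ 6 * (A ^ i * B ^ j) ≤ 10 ^ 6 * (A ^ 12 * B ^ 2) := by linarith
      _ = 10 ^ 6 * A ^ 12 * B ^ 2 := by ring
  have hdl1 : dl ≤ 1 := by
    have := hdAB 0 0 (by norm_num) (by norm_num)
    norm_num at this
    linarith
  have hAD : ∀ i j : ℕ, i ≤ 20 → j ≤ 3 → 10 ^ 6 * (A ^ i * B ^ j) ≤ D := by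
    intro i j hi hj
    refine (hAB i j hi hj).trans ?_
    calc dl * D ≤ 1 * D := mul_le_mul_of_nonneg_right hdl1 D0.le
      _ = D := one_mul D
  -- `κ` against powers
  have hκD : ∀ i j : ℕ, i ≤ 19 → j ≤ 3 → 10 ^ 8 * (A ^ i * B ^ j) ≤ κ * D := by
    intro i j hi hj
    have h1 := hAD (i + 1) j (by omega) hj
    have h2 : A * (10 ^ 8 * (A ^ i * B ^ j)) ≤ A * (κ * D) := by
      calc A * (10 ^ 8 * (A ^ i * B ^ j)) = 100 * (10 ^ 6 * (A ^ (i + 1) * B ^ j)) := by ring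
        _ ≤ 100 * D := by linarith
        _ ≤ (κ * A) * D := mul_le_mul_of_nonneg_right (by linarith) D0.le
        _ = A * (κ * D) := by ring
    exact le_of_mul_le_mul_left h2 A0
  -- `u`
  obtain ⟨t, ht⟩ : ∃ t : ℝ, t = 1 / A ^ 7 := ⟨_, rfl⟩
  have t0 : 0 < t := by rw [ht]; positivity
  have tA : t * A ^ 7 = 1 := by rw [ht]; field_simp
  have t1 : t ≤ 1 := by
    rw [ht, div_le_one (by positivity)]
    exact one_le_pow₀ A1
  have ht2 : 1 / (2 * A ^ 7) = t / 2 := by rw [ht]; field_simp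
  rw [← ht, ht2]
  obtain ⟨q, hq⟩ : ∃ q : ℝ, q = 4 * m * A * B := ⟨_, rfl⟩
  have q0 : 0 < q := by rw [hq]; positivity
  have hqA : q = 2 * (A - 1) * A * B := by rw [hq, hm]; ring
  obtain ⟨u, hu1, hu2⟩ : ∃ u : ℕ, q * u ≤ (1 - 3 / 4 * t) * D ∧
      (1 - 3 / 4 * t) * D < q * (u + 1) := by
    refine ⟨⌊(1 - 3 / 4 * t) * D / q⌋₊, ?_, ?_⟩
    · have h1 : (⌊(1 - 3 / 4 * t) * D / q⌋₊ : ℝ) ≤ (1 - 3 / 4 * t) * D / q :=
        Nat.floor_le (div_nonneg (mul_nonneg (by linarith) D0.le) q0.le)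
      calc q * (⌊(1 - 3 / 4 * t) * D / q⌋₊ : ℝ) ≤ q * ((1 - 3 / 4 * t) * D / q) :=
            mul_le_mul_of_nonneg_left h1 q0.le
        _ = (1 - 3 / 4 * t) * D := by field_simp
    · have h1 := Nat.lt_floor_add_one ((1 - 3 / 4 * t) * D / q)
      rw [div_lt_iff₀ q0] at h1
      linarith
  have hq2 : q ≤ t / 4 * D := by
    have h1 := hAD 9 1 (by norm_num) (by norm_num)
    have h2 : q * A ^ 7 ≤ 1 / 4 * D := by
      have e1 : q * A ^ 7 = 2 * (A ^ 9 * B ^ 1) - 2 * (A ^ 8 * B) := by rw [hqA]; ring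
      rw [e1]
      have : 0 ≤ A ^ 8 * B := by positivity
      have : 0 ≤ A ^ 9 * B ^ 1 := by positivity
      linarith
    calc q = t * (q * A ^ 7) := by
          rw [show t * (q * A ^ 7) = q * (t * A ^ 7) by ring, tA, mul_one]
      _ ≤ t * (1 / 4 * D) := mul_le_mul_of_nonneg_left h2 t0.le
      _ = t / 4 * D := by ring
  have hul : (1 - t) * D ≤ q * u := by
    have e1 : (1 - 3 / 4 * t) * D = (1 - t) * D + t / 4 * D := by ring
    have e2 : q * ((u : ℝ) + 1) = q * u + q := by ring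
    rw [e1, e2] at hu2
    linarith
  -- `mP`
  obtain ⟨mP, hmP1, hmP2⟩ : ∃ mP : ℕ, 4 * D / A ^ 7 + 2 ≤ (mP : ℝ) ∧
      (mP : ℝ) ≤ 4 * D / A ^ 7 + 3 := by
    refine ⟨⌈4 * D / A ^ 7 + 2⌉₊, Nat.le_ceil _, ?_⟩
    have := (Nat.ceil_lt_add_one (a := 4 * D / A ^ 7 + 2) (by positivity)).le
    linarith
  have hmP3 : A ^ 4 * mP ≤ 5 * D / A ^ 3 := by
    have h1 := hAD 7 0 (by norm_num) (by norm_num)
    rw [le_div_iff₀ (by positivity)]
    have h2 : A ^ 4 * (mP : ℝ) * A ^ 3 ≤ A ^ 7 * (4 * D / A ^ 7 + 3) := by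
      calc A ^ 4 * (mP : ℝ) * A ^ 3 = A ^ 7 * mP := by ring
        _ ≤ A ^ 7 * (4 * D / A ^ 7 + 3) := mul_le_mul_of_nonneg_left hmP2 (by positivity)
    have h3 : A ^ 7 * (4 * D / A ^ 7 + 3) = 4 * D + 3 * A ^ 7 := by field_simp
    rw [h3] at h2
    rw [pow_zero, mul_one] at h1
    have : 0 ≤ A ^ 7 := by positivity
    linarith
  -- `Δ`
  obtain ⟨x, hx⟩ : ∃ x : ℝ, x = D / B := ⟨_, rfl⟩
  have x0 : 0 < x := by rw [hx]; positivity
  have xB : x * B = D := by rw [hx]; field_simp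
  obtain ⟨Δ, hΔ1, hΔ2⟩ : ∃ Δ : ℕ, (1 / B + 2 * A * dl) * D ≤ (Δ : ℝ) ∧
      (Δ : ℝ) ≤ (1 / B + 2 * A * dl) * D + 1 :=
    ⟨⌈(1 / B + 2 * A * dl) * D⌉₊, Nat.le_ceil _, (Nat.ceil_lt_add_one (by positivity)).le⟩
  have hΔ3 : (Δ : ℝ) ≤ (1 + κ / 10) * x := by
    have h1 : 2 * A * B * dl ≤ κ / 20 := by
      have h2 := hdAB 2 1 (by norm_num) (by norm_num)
      have h3 : A * (2 * A * B * dl) ≤ A * (κ / 20) := by
        have e1 : A * (2 * A * B * dl) = 2 / 10 ^ 6 * (dl * (10 ^ 6 * (A ^ 2 * B ^ 1))) := by ring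
        have e2 : A * (κ / 20) = κ * A / 20 := by ring
        rw [e1, e2]
        linarith
      exact le_of_mul_le_mul_left h3 A0
    have h4 : 1 ≤ κ / 20 * x := by
      have h5 := hκD 0 1 (by norm_num) (by norm_num)
      have h6 : B * 1 ≤ B * (κ / 20 * x) := by
        have e1 : B * (κ / 20 * x) = κ * D / 20 := by rw [← xB]; ring
        rw [e1]
        rw [pow_zero, one_mul, pow_one] at h5
        linarith
      exact le_of_mul_le_mul_left h6 B0
    have e1 : (1 / B + 2 * A * dl) * D = x + 2 * A * B * dl * x := by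
      rw [hx]; field_simp
    rw [e1] at hΔ2
    have h7 : 2 * A * B * dl * x ≤ κ / 20 * x := mul_le_mul_of_nonneg_right h1 x0.le
    linarith
  have Δ0 : (0 : ℝ) ≤ Δ := Nat.cast_nonneg _
  have hκ2 : (1 - κ) * (1 + κ / 10) ≤ 1 - 9 / 10 * κ := by nlinarith
  have hΔ4 : (1 - κ) * Δ ≤ (1 - 9 / 10 * κ) * x := by
    calc (1 - κ) * Δ ≤ (1 - κ) * ((1 + κ / 10) * x) :=
          mul_le_mul_of_nonneg_left hΔ3 (by linarith)
      _ = (1 - κ) * (1 + κ / 10) * x := by ring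
      _ ≤ (1 - 9 / 10 * κ) * x := mul_le_mul_of_nonneg_right hκ2 x0.le
  -- `w`
  obtain ⟨z, hz⟩ : ∃ z : ℝ, z = A ^ 2 * B := ⟨_, rfl⟩
  have z0 : 0 < z := by rw [hz]; positivity
  obtain ⟨w, hw1, hw2⟩ : ∃ w : ℕ, (1 - κ) * Δ ≤ z * w ∧ z * w ≤ (1 - κ) * Δ + z := by
    have h0 : 0 ≤ (1 - κ) * Δ / z := div_nonneg (mul_nonneg (by linarith) Δ0) z0.le
    refine ⟨⌈(1 - κ) * Δ / z⌉₊, ?_, ?_⟩
    · have h1 := Nat.le_ceil ((1 - κ) * Δ / z)
      rw [div_le_iff₀ z0] at h1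
      linarith
    · have h1 := (Nat.ceil_lt_add_one h0).le
      calc z * (⌈(1 - κ) * Δ / z⌉₊ : ℝ) ≤ z * ((1 - κ) * Δ / z + 1) :=
            mul_le_mul_of_nonneg_left h1 z0.le
        _ = (1 - κ) * Δ + z := by field_simp
  have w0 : (0 : ℝ) ≤ w := Nat.cast_nonneg _
  have hzw : z * w ≤ (1 - 9 / 10 * κ) * x + z := hw2.trans (by linarith)
  have hBκ : 1 ≤ κ / 10 * B := by
    have h1 : A ^ 1 ≤ A ^ 7 := pow_le_pow_right₀ A1 (by norm_num)
    rw [pow_one] at h1
    have h2 : κ * A ≤ κ * B := mul_le_mul_of_nonneg_left (by linarith) hκ0.le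
    linarith
  have hw3 : ((r : ℝ) + 1) * w ≤ u := by
    have h1 : q * (((r : ℝ) + 1) * w) ≤ q * u := by
      refine le_trans ?_ hul
      have e1 : q * (((r : ℝ) + 1) * w) = (1 - 1 / A) * ((B + 1) * (z * w)) := by
        rw [hqA, hr, hz]; field_simp; ring
      rw [e1]
      have h2 : (1 - 1 / A) * ((B + 1) * (z * w)) ≤ (B + 1) * (z * w) := by
        have h3 : 0 ≤ (B + 1) * (z * w) := by positivity
        have h4 : 0 ≤ 1 / A * ((B + 1) * (z * w)) := by positivity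
        linarith
      refine h2.trans ?_
      have h5 : (B + 1) * (z * w) ≤ (B + 1) * ((1 - 9 / 10 * κ) * x + z) :=
        mul_le_mul_of_nonneg_left hzw (by linarith)
      refine h5.trans ?_
      have e2 : (B + 1) * ((1 - 9 / 10 * κ) * x + z) =
          (1 - 9 / 10 * κ) * (D + x) + (B + 1) * z := by rw [← xB]; ring
      rw [e2]
      have h6 : x ≤ κ / 10 * D := by
        calc x = 1 * x := (one_mul x).symm
          _ ≤ κ / 10 * B * x := mul_le_mul_of_nonneg_right hBκ x0.le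
          _ = κ / 10 * D := by rw [← xB]; ring
      have h7 : (1 - 9 / 10 * κ) * (D + x) ≤ (1 - 9 / 10 * κ) * (D + κ / 10 * D) :=
        mul_le_mul_of_nonneg_left (by linarith) (by linarith)
      have h8 : (1 - 9 / 10 * κ) * (D + κ / 10 * D) ≤ (1 - 8 / 10 * κ) * D := by
        have : (1 - 9 / 10 * κ) * (D + κ / 10 * D) = (1 - 8 / 10 * κ - 9 / 100 * κ ^ 2) * D := by
          ring
        rw [this]
        refine mul_le_mul_of_nonneg_right ?_ D0.le
        nlinarith [sq_nonneg κ]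
      have h9 : (B + 1) * z ≤ κ / 10 * D := by
        have h10 := hκD 2 2 (by norm_num) (by norm_num)
        have h11 : (B + 1) * z ≤ 2 * (A ^ 2 * B ^ 2) := by
          rw [hz]
          calc (B + 1) * (A ^ 2 * B) ≤ (B + B) * (A ^ 2 * B) :=
                mul_le_mul_of_nonneg_right (by linarith) (by positivity)
            _ = 2 * (A ^ 2 * B ^ 2) := by ring
        have : 0 ≤ A ^ 2 * B ^ 2 := by positivity
        linarith
      have h12 : t * D ≤ κ / 10 * D := by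
        refine mul_le_mul_of_nonneg_right ?_ D0.le
        have h13 : A ^ 1 * t ≤ A ^ 7 * t :=
          mul_le_mul_of_nonneg_right (pow_le_pow_right₀ A1 (by norm_num)) t0.le
        have h14 : A * t ≤ A * (κ / 10) := by
          rw [pow_one, mul_comm (A ^ 7), tA] at h13
          linarith
        exact le_of_mul_le_mul_left h14 A0
      linarith
    exact le_of_mul_le_mul_left h1 q0
  have hw4 : A ^ 2 * B ^ 2 * w ≤ 3 / 2 * D := by
    have e1 : A ^ 2 * B ^ 2 * w = B * (z * w) := by rw [hz]; ring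
    rw [e1]
    have h1 : B * (z * w) ≤ B * (x + z) := by
      refine mul_le_mul_of_nonneg_left (hzw.trans ?_) B0.le
      have : 0 ≤ 9 / 10 * κ * x := by positivity
      linarith
    have e2 : B * (x + z) = D + A ^ 2 * B ^ 2 := by rw [← xB, hz]; ring
    have h2 := hAD 2 2 (by norm_num) (by norm_num)
    have : 0 ≤ A ^ 2 * B ^ 2 := by positivity
    linarith
  -- `pL`
  obtain ⟨pL, hp1, hp2⟩ : ∃ pL : ℕ, (1 - κ) * Δ ≤ pL ∧ (pL : ℝ) ≤ (1 - κ) * Δ + 1 :=
    ⟨⌈(1 - κ) * Δ⌉₊, Nat.le_ceil _,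
      (Nat.ceil_lt_add_one (mul_nonneg (by linarith) Δ0)).le⟩
  refine ⟨u, mP, Δ, w, pL, ?_, ?_, hmP1, hmP3, hΔ1, ?_, ?_, hw3, hw4, hp1, ?_⟩
  · have e1 : 2 * A * B * (2 * m * u) = q * u := by rw [hq]; ring
    rw [e1]
    exact hul
  · have e1 : 2 * A * B * (2 * m * u) = q * u := by rw [hq]; ring
    rw [e1]
    refine hu1.trans (mul_le_mul_of_nonneg_right (by linarith) D0.le)
  · rw [← hx]
    exact hΔ3
  · rw [← hz]
    exact hw1
  · -- the total number of colours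
    have h1 : A ^ 2 * B * u ≤ 1 / 2 * D + 1 / A * D := by
      have h2 : 2 * (A - 1) * (A ^ 2 * B * u) ≤ A * D := by
        have e1 : 2 * (A - 1) * (A ^ 2 * B * u) = A * (q * u) := by rw [hqA]; ring
        rw [e1]
        refine mul_le_mul_of_nonneg_left (hu1.trans ?_) A0.le
        have : 0 ≤ 3 / 4 * t * D := by positivity
        linarith
      have h3 : A * D ≤ 2 * (A - 1) * (1 / 2 * D + 1 / A * D) := by
        have e1 : 2 * (A - 1) * (1 / 2 * D + 1 / A * D) = A * D + (1 - 2 / A) * D := by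
          field_simp; ring
        rw [e1]
        have h4 : 2 / A ≤ 1 := by
          rw [div_le_one A0]
          exact le_trans (by norm_num) hA9
        have : 0 ≤ (1 - 2 / A) * D := mul_nonneg (by linarith) D0.le
        linarith
      have h4 : 0 < 2 * (A - 1) := by
        have : (2 : ℝ) ≤ A := le_trans (by norm_num) hA9
        linarith
      exact le_of_mul_le_mul_left (h2.trans h3) h4
    have h5 : 1 / A ≤ κ / 200 := by
      rw [div_le_iff₀ A0]
      linarith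
    have h6 : 5 * D / A ^ 3 ≤ κ / 200 * D := by
      have h7 : 5 / A ^ 3 ≤ 1 / A := by
        rw [div_le_div_iff₀ (by positivity) A0]
        have h8 : (5 : ℝ) ≤ A := le_trans (by norm_num) hA9
        have h9 : A * A ≤ A ^ 3 := by
          calc A * A = A ^ 2 := by ring
            _ ≤ A ^ 3 := pow_le_pow_right₀ A1 (by norm_num)
        have h10 : 5 * A ≤ A * A := mul_le_mul_of_nonneg_right h8 A0.le
        linarith
      calc 5 * D / A ^ 3 = 5 / A ^ 3 * D := by ring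
        _ ≤ κ / 200 * D := mul_le_mul_of_nonneg_right (h7.trans h5) D0.le
    have h11 : (r : ℝ) * pL ≤ 1 / 2 * D - 9 / 20 * κ * D + B := by
      have h12 : (pL : ℝ) ≤ (1 - 9 / 10 * κ) * x + 1 := hp2.trans (by linarith)
      have h13 : (r : ℝ) * pL ≤ B / 2 * ((1 - 9 / 10 * κ) * x + 1) := by
        refine mul_le_mul ?_ h12 (Nat.cast_nonneg _) (by linarith)
        rw [hr]; linarith
      refine h13.trans ?_
      have e1 : B / 2 * ((1 - 9 / 10 * κ) * x + 1) = 1 / 2 * D - 9 / 20 * κ * D + B / 2 := by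
        rw [← xB]; ring
      rw [e1]
      linarith
    have h14 := hκD 0 1 (by norm_num) (by norm_num)
    rw [pow_zero, one_mul, pow_one] at h14
    have h15 : 1 / A * D ≤ κ / 200 * D := mul_le_mul_of_nonneg_right h5 D0.le
    have h16 : 0 < κ * D := by positivity
    linarith

end numbers

/-! ## Colours -/

section colours

/-- the subcell whose palette contains the level `l` -/
noncomputable def hmf (r w : ℕ) (l : ℕ) : Option (ZMod (2 * r + 1)) :=
  if l < (r + 1) * w then some ((l / w : ℕ) : ZMod (2 * r + 1)) else none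

theorem hmf_some {r w l : ℕ} {s : ZMod (2 * r + 1)} :
    hmf r w l = some s ↔ l < (r + 1) * w ∧ l / w = s.val := by
  unfold hmf
  by_cases h : l < (r + 1) * w
  · have h1 : l / w < r + 1 := Nat.div_lt_of_lt_mul (by rwa [mul_comm] at h)
    have h2 : l / w < 2 * r + 1 := by omega
    simp only [h, if_true, Option.some.injEq, true_and]
    constructor
    · intro h3
      rw [← h3, ZMod.val_natCast_of_lt h2]
    · intro h3
      rw [h3, ZMod.natCast_zmod_val]
  · simp [h]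

theorem hmf_val {r w l : ℕ} {s : ZMod (2 * r + 1)} (h : hmf r w l = some s) :
    s.val < r + 1 := by
  obtain ⟨h1, h2⟩ := hmf_some.1 h
  rw [← h2]
  exact Nat.div_lt_of_lt_mul (by rwa [mul_comm] at h1)

theorem hmf_count (r w u : ℕ) (s : ZMod (2 * r + 1)) :
    ((range u).filter (fun l => hmf r w l = some s)).card ≤ w := by
  have h : (range u).filter (fun l => hmf r w l = some s) ⊆
      Finset.Ico (s.val * w) (s.val * w + w) := by
    intro l hl
    obtain ⟨h1, h2⟩ := hmf_some.1 (mem_filter.1 hl).2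
    have hw : 0 < w := by
      rcases Nat.eq_zero_or_pos w with h0 | h0
      · rw [h0, mul_zero] at h1
        omega
      · exact h0
    rw [Finset.mem_Ico, ← h2]
    refine ⟨Nat.div_mul_le_self l w, ?_⟩
    have := Nat.div_add_mod l w
    have h3 := Nat.mod_lt l hw
    rw [mul_comm] at this
    omega
  refine (card_le_card h).trans ?_
  rw [Nat.card_Ico]
  omega

/-- the set of the small subcells -/
noncomputable def GSf (r : ℕ) : Finset (ZMod (2 * r + 1)) := univ.filter (fun s => s.val < r + 1)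

theorem GSf_card (r : ℕ) : (GSf r).card = r + 1 := by
  have h : GSf r = (range (r + 1)).image (fun l : ℕ => (l : ZMod (2 * r + 1))) := by
    ext s
    simp only [GSf, mem_filter, mem_univ, true_and, mem_image, mem_range]
    constructor
    · intro h
      exact ⟨s.val, h, ZMod.natCast_zmod_val s⟩
    · rintro ⟨l, hl, rfl⟩
      rw [ZMod.val_natCast_of_lt (by omega)]
      exact hl
  rw [h, card_image_of_injOn, card_range]
  intro a ha b hb hab
  have ha' : a < r + 1 := mem_range.1 (mem_coe.1 ha)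
  have hb' : b < r + 1 := mem_range.1 (mem_coe.1 hb)
  have h1 : ((a : ZMod (2 * r + 1))).val = ((b : ZMod (2 * r + 1))).val := congrArg _ hab
  rwa [ZMod.val_natCast_of_lt (by omega), ZMod.val_natCast_of_lt (by omega)] at h1

variable (m r u mP w pL : ℕ)

/-- types of the colours -/
abbrev TI := ZMod (2 * m + 1) × ZMod (2 * m + 1) × ZMod (2 * r + 1) × Fin u
/-- types of the colours -/
abbrev TJ := (ZMod (2 * m + 1) × ZMod (2 * m + 1) × ZMod (2 * m + 1) × ZMod (2 * m + 1)) × Fin mP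
/-- types of the colours -/
abbrev TK := Fin r × Fin pL

/-- the palette of a colour -/
noncomputable def pal : TI m r u ⊕ (TJ m mP ⊕ TK r pL) → Option (ZMod (2 * r + 1))
  | Sum.inl a => hmf r w a.2.2.2
  | Sum.inr (Sum.inl _) => none
  | Sum.inr (Sum.inr z) => some ((r + 1 + (z.1 : ℕ) : ℕ) : ZMod (2 * r + 1))

theorem pal_card1 (hw : (r + 1) * w ≤ u) (s : ZMod (2 * r + 1)) (hs : s.val < r + 1) :
    (2 * m + 1) ^ 2 * (2 * r + 1) * w ≤
      (univ.filter (fun x => pal m r u mP w pL x = some s)).card := by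
  have hb : s.val * w + w ≤ u := by
    calc s.val * w + w = (s.val + 1) * w := by ring
      _ ≤ (r + 1) * w := Nat.mul_le_mul_right w hs
      _ ≤ u := hw
  let φ : ZMod (2 * m + 1) × ZMod (2 * m + 1) × ZMod (2 * r + 1) × Fin w →
      TI m r u ⊕ (TJ m mP ⊕ TK r pL) := fun x =>
    Sum.inl (x.1, x.2.1, x.2.2.1, ⟨s.val * w + x.2.2.2, by have := x.2.2.2.isLt; omega⟩)
  have hφ : Function.Injective φ := by
    intro x y hxy
    have h1 := Sum.inl_injective hxy
    simp only [Prod.mk.injEq, Fin.mk.injEq] at h1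
    obtain ⟨h2, h3, h4, h5⟩ := h1
    have h6 : x.2.2.2 = y.2.2.2 := Fin.ext (by omega)
    exact Prod.ext h2 (Prod.ext h3 (Prod.ext h4 h6))
  have h1 : (univ.image φ).card = (2 * m + 1) ^ 2 * (2 * r + 1) * w := by
    rw [card_image_of_injective _ hφ, card_univ]
    simp only [Fintype.card_prod, ZMod.card, Fintype.card_fin]
    ring
  rw [← h1]
  refine card_le_card fun y hy => ?_
  obtain ⟨x, -, rfl⟩ := mem_image.1 hy
  refine mem_filter.2 ⟨mem_univ _, ?_⟩
  have hx := x.2.2.2.isLt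
  have hw0 : 0 < w := by omega
  change hmf r w (s.val * w + (x.2.2.2 : ℕ)) = some s
  rw [hmf_some]
  constructor
  · calc s.val * w + (x.2.2.2 : ℕ) < s.val * w + w := by omega
      _ = (s.val + 1) * w := by ring
      _ ≤ (r + 1) * w := Nat.mul_le_mul_right w hs
  · rw [mul_comm, Nat.mul_add_div hw0, Nat.div_eq_of_lt hx, add_zero]

theorem pal_card2 (s : ZMod (2 * r + 1)) (hs : ¬ s.val < r + 1) :
    pL ≤ (univ.filter (fun x => pal m r u mP w pL x = some s)).card := by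
  have hlt : s.val < 2 * r + 1 := ZMod.val_lt s
  let φ : Fin pL → TI m r u ⊕ (TJ m mP ⊕ TK r pL) := fun y =>
    Sum.inr (Sum.inr (⟨s.val - (r + 1), by omega⟩, y))
  have hφ : Function.Injective φ := by
    intro x y hxy
    have h1 := Sum.inr_injective (Sum.inr_injective hxy)
    exact (Prod.ext_iff.1 h1).2
  have h1 : (univ.image φ).card = pL := by
    rw [card_image_of_injective _ hφ, card_univ, Fintype.card_fin]
  refine h1.symm.le.trans (card_le_card fun y hy => ?_)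
  obtain ⟨x, -, rfl⟩ := mem_image.1 hy
  refine mem_filter.2 ⟨mem_univ _, ?_⟩
  change some (((r + 1 + (s.val - (r + 1)) : ℕ)) : ZMod (2 * r + 1)) = some s
  rw [show r + 1 + (s.val - (r + 1)) = s.val by omega, ZMod.natCast_zmod_val]

theorem colours (k : ℕ) (hw : (r + 1) * w ≤ u)
    (hk : (2 * m + 1) ^ 2 * (2 * r + 1) * u + (2 * m + 1) ^ 4 * mP + r * pL ≤ k) :
    ∃ (gi gj : Fin k → ZMod (2 * m + 1)) (gs : Fin k → ZMod (2 * r + 1)) (gk : Fin k → ℕ)
      (Ga Pe : Finset (Fin k))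
      (ty : Fin k → ZMod (2 * m + 1) × ZMod (2 * m + 1) × ZMod (2 * m + 1) × ZMod (2 * m + 1))
      (GS : Finset (ZMod (2 * r + 1))) (Pal : ZMod (2 * r + 1) → Finset (Fin k))
      (hm : ℕ → Option (ZMod (2 * r + 1))),
      Disjoint Ga Pe ∧
      (∀ i j s (l : ℕ), l < u → ∃ b ∈ Ga, gi b = i ∧ gj b = j ∧ gs b = s ∧ gk b = l) ∧
      (∀ b ∈ Ga, gk b < u) ∧
      (∀ b ∈ Ga, ∀ b' ∈ Ga, gi b = gi b' → gj b = gj b' → gs b = gs b' → gk b = gk b' → b = b') ∧
      (∀ τ, (Pe.filter (fun b => ty b = τ)).card = mP) ∧ Pe.card = (2 * m + 1) ^ 4 * mP ∧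
      GS.card = r + 1 ∧ (∀ s s', s ≠ s' → Disjoint (Pal s) (Pal s')) ∧
      (∀ s ∈ GS, Pal s ⊆ Ga) ∧ (∀ s, s ∉ GS → Disjoint (Pal s) (Ga ∪ Pe)) ∧
      (∀ b ∈ Ga, ∀ s, b ∈ Pal s ↔ hm (gk b) = some s) ∧
      (∀ s, ((range u).filter (fun l => hm l = some s)).card ≤ w) ∧
      ∀ s, (2 * m + 1) ^ 2 * (2 * r + 1) * w ≤ (Pal s).card ∨ pL ≤ (Pal s).card := by
  have hc : Fintype.card (TI m r u ⊕ (TJ m mP ⊕ TK r pL)) ≤ Fintype.card (Fin k) := by
    simp only [Fintype.card_sum, Fintype.card_prod, ZMod.card, Fintype.card_fin]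
    refine le_trans (le_of_eq ?_) hk
    ring
  obtain ⟨f⟩ := Function.Embedding.nonempty_of_card_le hc
  have hf := f.injective
  let gi : Fin k → ZMod (2 * m + 1) :=
    Function.extend f (Sum.elim (fun a => a.1) (fun _ => 0)) (fun _ => 0)
  let gj : Fin k → ZMod (2 * m + 1) :=
    Function.extend f (Sum.elim (fun a => a.2.1) (fun _ => 0)) (fun _ => 0)
  let gs : Fin k → ZMod (2 * r + 1) :=
    Function.extend f (Sum.elim (fun a => a.2.2.1) (fun _ => 0)) (fun _ => 0)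
  let gk : Fin k → ℕ :=
    Function.extend f (Sum.elim (fun a => (a.2.2.2 : ℕ)) (fun _ => 0)) (fun _ => 0)
  let ty : Fin k → ZMod (2 * m + 1) × ZMod (2 * m + 1) × ZMod (2 * m + 1) × ZMod (2 * m + 1) :=
    Function.extend f (Sum.elim (fun _ => 0) (Sum.elim (fun a => a.1) (fun _ => 0))) (fun _ => 0)
  have e1 : ∀ a, gi (f (Sum.inl a)) = a.1 := fun a => hf.extend_apply _ _ _
  have e2 : ∀ a, gj (f (Sum.inl a)) = a.2.1 := fun a => hf.extend_apply _ _ _
  have e3 : ∀ a, gs (f (Sum.inl a)) = a.2.2.1 := fun a => hf.extend_apply _ _ _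
  have e4 : ∀ a, gk (f (Sum.inl a)) = (a.2.2.2 : ℕ) := fun a => hf.extend_apply _ _ _
  have e5 : ∀ a, ty (f (Sum.inr (Sum.inl a))) = a.1 := fun a => hf.extend_apply _ _ _
  let Ga : Finset (Fin k) := univ.image fun x => f (Sum.inl x)
  let Pe : Finset (Fin k) := univ.image fun x => f (Sum.inr (Sum.inl x))
  let Pal : ZMod (2 * r + 1) → Finset (Fin k) := fun s =>
    (univ.filter (fun x => pal m r u mP w pL x = some s)).image f
  have mGa : ∀ b, b ∈ Ga ↔ ∃ x, f (Sum.inl x) = b := fun b => by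
    simp only [Ga, mem_image, mem_univ, true_and]
  have mPe : ∀ b, b ∈ Pe ↔ ∃ x, f (Sum.inr (Sum.inl x)) = b := fun b => by
    simp only [Pe, mem_image, mem_univ, true_and]
  have mPal : ∀ b s, b ∈ Pal s ↔ ∃ x, pal m r u mP w pL x = some s ∧ f x = b := fun b s => by
    simp only [Pal, mem_image, mem_filter, mem_univ, true_and]
  refine ⟨gi, gj, gs, gk, Ga, Pe, ty, GSf r, Pal, hmf r w, ?_, ?_, ?_, ?_, ?_, ?_, GSf_card r,
    ?_, ?_, ?_, ?_, hmf_count r w u, ?_⟩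
  · rw [Finset.disjoint_left]
    intro b hb hb'
    obtain ⟨x, rfl⟩ := (mGa b).1 hb
    obtain ⟨y, hy⟩ := (mPe _).1 hb'
    have := hf hy
    cases this
  · intro i j s l hl
    exact ⟨f (Sum.inl (i, j, s, ⟨l, hl⟩)), (mGa _).2 ⟨_, rfl⟩, e1 _, e2 _, e3 _, e4 _⟩
  · intro b hb
    obtain ⟨x, rfl⟩ := (mGa b).1 hb
    rw [e4]
    exact x.2.2.2.isLt
  · intro b hb b' hb' h1 h2 h3 h4
    obtain ⟨x, rfl⟩ := (mGa b).1 hb
    obtain ⟨y, rfl⟩ := (mGa b').1 hb'
    rw [e1, e1] at h1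
    rw [e2, e2] at h2
    rw [e3, e3] at h3
    rw [e4, e4] at h4
    have : x = y := Prod.ext h1 (Prod.ext h2 (Prod.ext h3 (Fin.ext h4)))
    rw [this]
  · intro τ
    have h1 : Pe.filter (fun b => ty b = τ) =
        univ.image fun y : Fin mP => f (Sum.inr (Sum.inl (τ, y))) := by
      ext b
      simp only [mem_filter, mem_image, mem_univ, true_and]
      constructor
      · rintro ⟨hb, h2⟩
        obtain ⟨x, rfl⟩ := (mPe b).1 hb
        rw [e5] at h2
        refine ⟨x.2, ?_⟩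
        have : (τ, x.2) = x := Prod.ext h2.symm rfl
        rw [this]
      · rintro ⟨y, rfl⟩
        exact ⟨(mPe _).2 ⟨_, rfl⟩, by rw [e5]⟩
    rw [h1, card_image_of_injective _ (fun y y' h => by
      have := Sum.inl_injective (Sum.inr_injective (hf h))
      exact (Prod.ext_iff.1 this).2), card_univ, Fintype.card_fin]
  · have h1 : Pe.card = Fintype.card (TJ m mP) := by
      rw [← card_univ]
      exact card_image_of_injective _ (hf.comp (Sum.inr_injective.comp Sum.inl_injective))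
    rw [h1]
    simp only [Fintype.card_prod, Fintype.card_fin, ZMod.card]
    ring
  · intro s s' hs
    rw [Finset.disjoint_left]
    intro b hb hb'
    obtain ⟨x, hx, rfl⟩ := (mPal _ _).1 hb
    obtain ⟨y, hy, hxy⟩ := (mPal _ _).1 hb'
    rw [hf hxy, hx] at hy
    exact hs (Option.some.inj hy)
  · intro s hs b hb
    have hs' : s.val < r + 1 := (mem_filter.1 hs).2
    obtain ⟨x, hx, rfl⟩ := (mPal _ _).1 hb
    rcases x with a | a | z
    · exact (mGa _).2 ⟨a, rfl⟩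
    · cases hx
    · exfalso
      have h1 : ((r + 1 + (z.1 : ℕ) : ℕ) : ZMod (2 * r + 1)) = s := Option.some.inj hx
      have hz := z.1.isLt
      rw [← h1, ZMod.val_natCast_of_lt (by omega)] at hs'
      omega
  · intro s hs
    have hs' : ¬ s.val < r + 1 := fun h => hs (mem_filter.2 ⟨mem_univ _, h⟩)
    rw [Finset.disjoint_left]
    intro b hb hb'
    obtain ⟨x, hx, rfl⟩ := (mPal _ _).1 hb
    rcases x with a | a | z
    · exact hs' (hmf_val hx)
    · cases hx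
    · rcases mem_union.1 hb' with h | h
      · obtain ⟨y, hy⟩ := (mGa _).1 h
        have := hf hy
        cases this
      · obtain ⟨y, hy⟩ := (mPe _).1 h
        have := Sum.inr_injective (hf hy)
        cases this
  · intro b hb s
    obtain ⟨a, rfl⟩ := (mGa b).1 hb
    rw [e4, mPal]
    constructor
    · rintro ⟨x, hx, hxa⟩
      rw [hf hxa] at hx
      exact hx
    · intro h
      exact ⟨Sum.inl a, h, rfl⟩
  · intro s
    have h1 : (Pal s).card = (univ.filter (fun x => pal m r u mP w pL x = some s)).card :=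
      card_image_of_injective _ hf
    rw [h1]
    by_cases hs : s.val < r + 1
    · exact Or.inl (pal_card1 m r u mP w pL hw s hs)
    · exact Or.inr (pal_card2 m r u mP w pL s hs)

end colours

/-! ## Sets -/

section sets
variable {V : Type u} [Fintype V]

theorem mem_nb {G : SimpleGraph V} {v w : V} : w ∈ nb G v ↔ G.Adj v w := by
  simp [nb]

theorem mem_cls {T : Type} {U : Finset V} {π : V → T} {P : Finset T} {v : V} :
    v ∈ cls U π P ↔ v ∉ U ∧ π v ∈ P := by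
  simp [cls]

theorem nb_eq {G G0 : SimpleGraph V} {U : Finset V} (hG0 : G0 ≤ G)
    (hnb : ∀ v, v ∉ U → nb G0 v = nb G v) (v : V) (S : Finset V) (hS : ∀ w ∈ S, w ∉ U) :
    nb G0 v ∩ S = nb G v ∩ S := by
  ext w
  simp only [mem_inter, mem_nb]
  constructor
  · rintro ⟨h, hw⟩
    exact ⟨hG0 h, hw⟩
  · rintro ⟨h, hw⟩
    have h1 : v ∈ nb G w := mem_nb.2 h.symm
    rw [← hnb w (hS w hw)] at h1
    exact ⟨(mem_nb.1 h1).symm, hw⟩

theorem FI_eq {G G0 : SimpleGraph V} {U : Finset V} (hG0 : G0 ≤ G)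
    (hnb : ∀ v, v ∉ U → nb G0 v = nb G v) {q g : ℝ} {C D : Finset V} (hD : ∀ w ∈ D, w ∉ U)
    (h : FI G q g C D) : FI G0 q g C D := by
  intro A B hA hB hAC
  have h1 := h A B hA hB hAC
  have h2 : ∀ a, nb G0 a ∩ (D \ B) = nb G a ∩ (D \ B) := fun a =>
    nb_eq hG0 hnb a _ fun w hw => hD w (mem_sdiff.1 hw).1
  simp only [h2]
  exact h1

omit [Fintype V] in
theorem mis_mono {G G0 : SimpleGraph V} (hG0 : G0 ≤ G) (A : Finset V) :
    (mis G A).card ≤ (mis G0 A).card := by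
  refine card_le_card fun p hp => ?_
  simp only [mis, mem_filter] at hp ⊢
  exact ⟨hp.1, hp.2.1, fun h => hp.2.2 (hG0 h)⟩

/-- double counting -/
theorem dcU (G0 : SimpleGraph V) (U : Finset V)
    (hU2 : ∀ v, (univ.filter (fun u => u ∈ U ∧ G0.Adj v u)).card ≤ 2) :
    ∑ u ∈ U, (nb G0 u).card ≤ 2 * Fintype.card V := by
  have h := Finset.sum_card_bipartiteAbove_eq_sum_card_bipartiteBelow (s := (univ : Finset V))
    (t := U) (r := fun v w => G0.Adj v w)
  have h2 : ∀ w ∈ U, (nb G0 w).card =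
      (bipartiteBelow (fun v w => G0.Adj v w) (univ : Finset V) w).card := by
    intro w _
    congr 1
    ext v
    simp only [mem_nb, mem_bipartiteBelow, mem_univ, true_and]
    exact G0.adj_comm w v
  rw [sum_congr rfl h2, ← h]
  calc _ ≤ ∑ _v : V, 2 := by
        refine sum_le_sum fun v _ => le_trans (card_le_card fun w hw => ?_) (hU2 v)
        rw [mem_bipartiteAbove] at hw
        exact mem_filter.2 ⟨mem_univ _, hw.1, hw.2⟩
    _ = 2 * Fintype.card V := by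
        rw [sum_const, card_univ, smul_eq_mul, mul_comm]

variable {T : Type} [Fintype T]

/-- the side of a vertex -/
noncomputable def sideF (U : Finset V) (τ : V → Bool) (π : V → Bool × T) (v : V) : Bool :=
  if v ∈ U then τ v else (π v).1

omit [Fintype V] [Fintype T] in
theorem sideF_out {U : Finset V} {τ : V → Bool} {π : V → Bool × T} {v : V} (h : v ∉ U) :
    sideF U τ π v = (π v).1 := if_neg h

omit [Fintype V] [Fintype T] in
theorem sideF_in {U : Finset V} {τ : V → Bool} {π : V → Bool × T} {v : V} (h : v ∈ U) :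
    sideF U τ π v = τ v := if_pos h

omit [Fintype T] in
theorem sd_split (U : Finset V) (τ : V → Bool) (π : V → Bool × T) (s : Bool) :
    sd (sideF U τ π) s = univ.filter (fun v => v ∉ U ∧ (π v).1 = s) ∪
      univ.filter (fun v => v ∈ U ∧ τ v = s) := by
  ext v
  simp only [sd, mem_filter, mem_univ, true_and, mem_union]
  by_cases h : v ∈ U
  · simp [h, sideF_in h]
  · simp [h, sideF_out h]

omit [Fintype T] in
theorem sd_disj (U : Finset V) (τ : V → Bool) (π : V → Bool × T) (s : Bool) :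
    Disjoint (univ.filter (fun v => v ∉ U ∧ (π v).1 = s))
      (univ.filter (fun v => v ∈ U ∧ τ v = s)) := by
  rw [Finset.disjoint_left]
  intro v hv hv'
  exact (mem_filter.1 hv).2.1 (mem_filter.1 hv').2.1

theorem out_card (U : Finset V) (π : V → Bool × T) (s : Bool) :
    (univ.filter (fun v => v ∉ U ∧ (π v).1 = s)).card = ∑ t, (cls U π {(s, t)}).card := by
  rw [card_eq_sum_card_fiberwise (f := fun v => (π v).2) (t := (univ : Finset T))
    (fun x _ => mem_coe.2 (mem_univ _))]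
  refine sum_congr rfl fun t _ => ?_
  congr 1
  ext v
  simp only [mem_filter, mem_univ, true_and, mem_cls, mem_singleton]
  constructor
  · rintro ⟨⟨h1, h2⟩, h3⟩
    exact ⟨h1, Prod.ext h2 h3⟩
  · rintro ⟨h1, h2⟩
    rw [h2]
    exact ⟨⟨h1, rfl⟩, rfl⟩

end sets

theorem stmt_CTX (hP : Stmt_PARTXW.{u}) (hV : Stmt_VCX.{u}) : Stmt_CTX.{u} := by
  intro γ hγ0 hγ1
  obtain ⟨κ, Δ0, hκ0, hκ1, hV1⟩ := hV (γ / 4) (by positivity)
  obtain ⟨g, hg⟩ : ∃ g : ℝ, g = γ / 100 := ⟨_, rfl⟩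
  have g0 : 0 < g := by rw [hg]; positivity
  have g1 : g ≤ 1 / 100 := by rw [hg]; linarith
  obtain ⟨m, hm⟩ := exists_nat_gt (max (10 ^ 5 / g ^ 2) (100 / κ))
  have hm1 : 10 ^ 5 / g ^ 2 < m := (le_max_left _ _).trans_lt hm
  have hm2 : 100 / κ < m := (le_max_right _ _).trans_lt hm
  have hmbig : 10 ^ 5 ≤ g ^ 2 * (2 * (m : ℝ) + 1) := by
    rw [div_lt_iff₀ (by positivity)] at hm1
    have : 0 < g ^ 2 := by positivity
    have h2 : 0 ≤ (m : ℝ) := Nat.cast_nonneg _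
    have h3 : 0 ≤ (m : ℝ) * g ^ 2 := by positivity
    nlinarith
  have hκA : 200 ≤ κ * (2 * (m : ℝ) + 1) := by
    rw [div_lt_iff₀ hκ0] at hm2
    nlinarith
  have hA9 : 10 ^ 9 ≤ 2 * (m : ℝ) + 1 := by
    have h1 : g ^ 2 ≤ 1 / 10 ^ 4 := by
      have : g ^ 2 ≤ (1 / 100) ^ 2 := pow_le_pow_left₀ g0.le g1 2
      norm_num at this ⊢
      exact this
    have h2 : g ^ 2 * (2 * (m : ℝ) + 1) ≤ 1 / 10 ^ 4 * (2 * (m : ℝ) + 1) :=
      mul_le_mul_of_nonneg_right h1 (by positivity)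
    norm_num at h2 hmbig ⊢
    linarith
  obtain ⟨r, hr⟩ : ∃ r : ℕ, r = 50 * (2 * m + 1) ^ 7 := ⟨_, rfl⟩
  have hrbig : 100 * (2 * (m : ℝ) + 1) ^ 7 ≤ 2 * (r : ℝ) + 1 := by
    rw [hr]
    push_cast
    linarith
  refine ⟨m, r, fun d1 => ?_⟩
  obtain ⟨dl, hdl⟩ : ∃ dl : ℝ, dl = g ^ 2 /
    (10 ^ 6 * (2 * (m : ℝ) + 1) ^ 12 * (2 * (r : ℝ) + 1) ^ 2) := ⟨_, rfl⟩
  have dl0 : 0 < dl := by rw [hdl]; positivity
  have hdlsm : dl * (10 ^ 6 * (2 * (m : ℝ) + 1) ^ 12 * (2 * (r : ℝ) + 1) ^ 2) = g ^ 2 := by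
    rw [hdl]; field_simp
  have hg2 : g ^ 2 ≤ 1 := by nlinarith
  obtain ⟨ε1, d2, hε1, hP1⟩ := hP (ZMod (2 * m + 1) × ZMod (2 * r + 1)) γ (dl / 10) hγ0 hγ1
    (by positivity)
  obtain ⟨d3, hd3⟩ := exists_nat_ge (10 ^ 6 * (2 * (m : ℝ) + 1) ^ 20 * (2 * (r : ℝ) + 1) ^ 3 / dl +
    (2 * (r : ℝ) + 1) * Δ0)
  obtain ⟨ε, hε⟩ : ∃ ε : ℝ, ε = min ε1 (dl / 10) := ⟨_, rfl⟩
  have ε0 : 0 < ε := by rw [hε]; exact lt_min hε1 (by positivity)
  have le1 : ε ≤ ε1 := by rw [hε]; exact min_le_left _ _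
  have le2 : ε ≤ dl / 10 := by rw [hε]; exact min_le_right _ _
  refine ⟨ε, max d1 (max d2 d3), ε0, le_max_left _ _, ?_⟩
  intro V _ k d G G0 U F τ hd hn hk hNR hBE hG0 hG1 hnb hF2 hF0 hUU hU2 hU1 hUeq hdU
  have D2 : d2 ≤ d := ((le_max_left _ _).trans (le_max_right _ _)).trans hd
  have D3 : d3 ≤ d := ((le_max_right _ _).trans (le_max_right _ _)).trans hd
  have D3' : (d3 : ℝ) ≤ d := by exact_mod_cast D3
  have hdbig : 10 ^ 6 * (2 * (m : ℝ) + 1) ^ 20 * (2 * (r : ℝ) + 1) ^ 3 ≤ dl * d := by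
    have h1 : 0 ≤ (2 * (r : ℝ) + 1) * Δ0 := by positivity
    have h2 : 10 ^ 6 * (2 * (m : ℝ) + 1) ^ 20 * (2 * (r : ℝ) + 1) ^ 3 / dl ≤ d := by linarith
    rw [div_le_iff₀ dl0] at h2
    linarith
  have hΔd : (2 * (r : ℝ) + 1) * Δ0 ≤ d := by
    have h1 : 0 ≤ 10 ^ 6 * (2 * (m : ℝ) + 1) ^ 20 * (2 * (r : ℝ) + 1) ^ 3 / dl := by positivity
    linarith
  have A1 : 1 ≤ 2 * (m : ℝ) + 1 := le_trans (by norm_num) hA9
  have B1 : 1 ≤ 2 * (r : ℝ) + 1 := by
    have : (0 : ℝ) ≤ r := Nat.cast_nonneg _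
    linarith
  have hdld : 10 ^ 6 ≤ dl * d := by
    refine le_trans ?_ hdbig
    have h1 : (1 : ℝ) ≤ (2 * (m : ℝ) + 1) ^ 20 := one_le_pow₀ A1
    have h2 : (1 : ℝ) ≤ (2 * (r : ℝ) + 1) ^ 3 := one_le_pow₀ B1
    have h3 : 1 ≤ (2 * (m : ℝ) + 1) ^ 20 * (2 * (r : ℝ) + 1) ^ 3 :=
      one_le_mul_of_one_le_of_one_le h1 h2
    calc (10 : ℝ) ^ 6 = 10 ^ 6 * 1 := (mul_one _).symm
      _ ≤ 10 ^ 6 * ((2 * (m : ℝ) + 1) ^ 20 * (2 * (r : ℝ) + 1) ^ 3) := by
          exact mul_le_mul_of_nonneg_left h3 (by positivity)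
      _ = _ := by ring
  have hdl1 : dl ≤ 1 / 10 ^ 6 := by
    have h1 : (1 : ℝ) ≤ (2 * (m : ℝ) + 1) ^ 12 := one_le_pow₀ A1
    have h2 : (1 : ℝ) ≤ (2 * (r : ℝ) + 1) ^ 2 := one_le_pow₀ B1
    have h3 : 1 ≤ (2 * (m : ℝ) + 1) ^ 12 * (2 * (r : ℝ) + 1) ^ 2 :=
      one_le_mul_of_one_le_of_one_le h1 h2
    have h4 : dl * 10 ^ 6 ≤ 1 := by
      calc dl * 10 ^ 6 = dl * (10 ^ 6 * 1) := by ring
        _ ≤ dl * (10 ^ 6 * ((2 * (m : ℝ) + 1) ^ 12 * (2 * (r : ℝ) + 1) ^ 2)) := by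
            exact mul_le_mul_of_nonneg_left (mul_le_mul_of_nonneg_left h3 (by positivity)) dl0.le
        _ = dl * (10 ^ 6 * (2 * (m : ℝ) + 1) ^ 12 * (2 * (r : ℝ) + 1) ^ 2) := by ring
        _ ≤ 1 := by rw [hdlsm]; exact hg2
    rw [le_div_iff₀ (by positivity)]
    exact h4
  have D0 : (0 : ℝ) < d := by
    by_contra h
    have : dl * (d : ℝ) ≤ 0 := mul_nonpos_of_nonneg_of_nonpos dl0.le (not_lt.1 h)
    norm_num at hdld
    linarith
  have hN0 : (0 : ℝ) ≤ Fintype.card V := Nat.cast_nonneg _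
  have hdN : (d : ℝ) ≤ Fintype.card V := by nlinarith
  -- the numbers
  obtain ⟨u, mP, Δ, w, pL, c1, c2, c3, c4, c5, c6, c7, c8, c9, c10, c11⟩ :=
    nums m r κ dl d hκ0 hκ1 hκA hA9 hrbig dl0 (hdlsm.le.trans hg2) hdbig
  have hkk : (2 * m + 1) ^ 2 * (2 * r + 1) * u + (2 * m + 1) ^ 4 * mP + r * pL ≤ k := by
    have h1 : (d : ℝ) ≤ k := by
      have : d ≤ k := by omega
      exact_mod_cast this
    exact_mod_cast c11.trans h1
  obtain ⟨gi, gj, gs, gk, Ga, Pe, ty, GS, Pal, hmm, f1, f2, f3, f4, f5, f6, f7, f8, f9, f10, f11,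
    f12, f13⟩ := colours m r u mP w pL k (by exact_mod_cast c8) hkk
  -- the partition
  have hU3 : ∀ v, (nb G v ∩ U).card ≤ 3 := by
    intro v
    have h1 : nb G v ∩ U ⊆ univ.filter (fun u => u ∈ U ∧ G0.Adj v u) ∪ (nb G v \ nb G0 v) := by
      intro w hw
      obtain ⟨a1, a2⟩ := mem_inter.1 hw
      by_cases h : w ∈ nb G0 v
      · exact mem_union_left _ (mem_filter.2 ⟨mem_univ _, a2, mem_nb.1 h⟩)
      · exact mem_union_right _ (mem_sdiff.2 ⟨a1, h⟩)
    have h2 := (card_le_card h1).trans (card_union_le _ _)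
    have h3 : nb G0 v ⊆ nb G v := fun w hw => mem_nb.2 (hG0 (mem_nb.1 hw))
    have h4 := card_sdiff_add_card_eq_card h3
    have h5 := hU2 v
    have h6 := hG1 v
    omega
  obtain ⟨π, N, p, p1, q1, q2, q3, q4, q5, q6, q7⟩ := hP1 G d U D2 hn (fun v => ⟨(hNR v).1,
    le_trans (mul_le_mul_of_nonneg_right (by linarith) D0.le) (hNR v).2⟩) hBE hU3
  have hT : ((Fintype.card (ZMod (2 * m + 1) × ZMod (2 * r + 1)) : ℕ) : ℝ) =
      (2 * (m : ℝ) + 1) * (2 * r + 1) := by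
    rw [Fintype.card_prod, ZMod.card, ZMod.card]
    push_cast
    ring
  simp only [hT] at q4 q6 q7
  have hclsU : ∀ (P : Finset (Bool × ZMod (2 * m + 1) × ZMod (2 * r + 1))), ∀ w ∈ cls U π P,
      w ∉ U := fun P w hw => (mem_cls.1 hw).1
  have hnbc : ∀ v P, nb G0 v ∩ cls U π P = nb G v ∩ cls U π P := fun v P =>
    nb_eq hG0 hnb v _ (hclsU P)
  have hcard0 : ∀ v, (nb G0 v).card ≤ (nb G v).card := fun v =>
    card_le_card fun w hw => mem_nb.2 (hG0 (mem_nb.1 hw))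
  have hlow0 : ∀ v, (1 - ε) * d - 1 ≤ ((nb G0 v).card : ℝ) := by
    intro v
    have a1 := (hNR v).2
    have a2 : ((nb G v).card : ℝ) ≤ (nb G0 v).card + 1 := by exact_mod_cast hG1 v
    linarith
  have hup0 : ∀ v, ((nb G0 v).card : ℝ) ≤ d := fun v => by
    exact_mod_cast (hcard0 v).trans (hNR v).1
  have hεd : ε * d ≤ dl / 10 * d := mul_le_mul_of_nonneg_right le2 D0.le
  have hdld2 : dl * (d : ℝ) ≤ 1 / 10 ^ 6 * d := mul_le_mul_of_nonneg_right hdl1 D0.le
  -- vertices of `U`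
  have hUcard : (U.card : ℝ) * d ≤ 3 * Fintype.card V := by
    have a1 := dcU G0 U hU2
    have a2 : (∑ u ∈ U, ((nb G0 u).card : ℝ)) ≤ 2 * Fintype.card V := by exact_mod_cast a1
    have a3 : ∑ _u ∈ U, (2 / 3 * (d : ℝ)) ≤ ∑ u ∈ U, ((nb G0 u).card : ℝ) := by
      refine sum_le_sum fun u _ => le_trans ?_ (hlow0 u)
      have e2 : (1 - ε) * (d : ℝ) = d - ε * d := by ring
      rw [e2]
      norm_num at hdld hdld2 ⊢
      linarith
    rw [sum_const, nsmul_eq_mul] at a3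
    linarith
  -- subcells
  have hsubeq : ∀ v (s : ZMod (2 * r + 1)),
      (nb G0 v).filter (fun w => w ∉ U ∧ (π w).2.2 = s) =
        nb G0 v ∩ cls U π (univ.filter (fun a => a.2.2 = s)) := by
    intro v s
    ext w
    simp only [mem_filter, mem_inter, mem_cls, mem_univ, true_and]
  have hsub1 : ∀ v (s : ZMod (2 * r + 1)),
      ((nb G0 v).filter (fun w => w ∉ U ∧ (π w).2.2 = s)).card ≤ Δ := by
    intro v s
    have h1 : (nb G0 v).filter (fun w => w ∉ U ∧ (π w).2.2 = s) ⊆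
        (univ : Finset (Bool × ZMod (2 * m + 1))).biUnion
          (fun x => nb G v ∩ cls U π {(x.1, x.2, s)}) := by
      intro w hw
      obtain ⟨a1, a2, a3⟩ := mem_filter.1 hw
      refine mem_biUnion.2 ⟨((π w).1, (π w).2.1), mem_univ _, mem_inter.2
        ⟨mem_nb.2 (hG0 (mem_nb.1 a1)), mem_cls.2 ⟨a2, mem_singleton.2 ?_⟩⟩⟩
      rw [← a3]
    have h2 := (card_le_card h1).trans card_biUnion_le
    have h3 : (((nb G0 v).filter (fun w => w ∉ U ∧ (π w).2.2 = s)).card : ℝ) ≤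
        ∑ x : Bool × ZMod (2 * m + 1), ((nb G v ∩ cls U π {(x.1, x.2, s)}).card : ℝ) := by
      exact_mod_cast h2
    have h4 : ∑ x : Bool × ZMod (2 * m + 1), ((nb G v ∩ cls U π {(x.1, x.2, s)}).card : ℝ) ≤
        ∑ _x : Bool × ZMod (2 * m + 1),
          ((d : ℝ) / (2 * ((2 * m + 1) * (2 * r + 1))) + dl / 10 * d) := by
      refine sum_le_sum fun x _ => ?_
      have := (abs_le.1 (q4 v (x.1, x.2, s))).2
      linarith
    rw [sum_const, card_univ, Fintype.card_prod, Fintype.card_bool, ZMod.card, nsmul_eq_mul] at h4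
    have h5 : ((2 * (2 * m + 1) : ℕ) : ℝ) *
        ((d : ℝ) / (2 * ((2 * m + 1) * (2 * r + 1))) + dl / 10 * d) ≤
        (1 / (2 * (r : ℝ) + 1) + 2 * (2 * (m : ℝ) + 1) * dl) * d := by
      have e1 : ((2 * (2 * m + 1) : ℕ) : ℝ) *
          ((d : ℝ) / (2 * ((2 * m + 1) * (2 * r + 1))) + dl / 10 * d) =
          (1 / (2 * (r : ℝ) + 1) + 2 * (2 * (m : ℝ) + 1) * dl) * d -
            9 / 10 * (2 * (2 * (m : ℝ) + 1) * dl * d) := by
        push_cast
        field_simp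
        ring
      rw [e1]
      have : 0 ≤ 2 * (2 * (m : ℝ) + 1) * dl * d := by positivity
      linarith
    have h6 : (((nb G0 v).filter (fun w => w ∉ U ∧ (π w).2.2 = s)).card : ℝ) ≤ Δ :=
      ((h3.trans h4).trans h5).trans c5
    exact_mod_cast h6
  have hPs : ∀ s : ZMod (2 * r + 1), ((univ.filter (fun a : Bool × ZMod (2 * m + 1) ×
      ZMod (2 * r + 1) => a.2.2 = s)).card : ℝ) = 2 * (2 * m + 1) := by
    intro s
    have h1 : univ.filter (fun a : Bool × ZMod (2 * m + 1) × ZMod (2 * r + 1) => a.2.2 = s) =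
        (univ : Finset (Bool × ZMod (2 * m + 1))).image (fun x => (x.1, x.2, s)) := by
      ext a
      simp only [mem_filter, mem_univ, true_and, mem_image]
      constructor
      · intro h
        exact ⟨(a.1, a.2.1), by rw [← h]⟩
      · rintro ⟨x, rfl⟩
        rfl
    rw [h1, card_image_of_injective, card_univ, Fintype.card_prod, Fintype.card_bool, ZMod.card]
    · push_cast
      ring
    · intro x y hxy
      simp only [Prod.mk.injEq, and_true] at hxy
      exact Prod.ext hxy.1 hxy.2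
  have hΔlow : Δ0 ≤ Δ := by
    have h1 : (Δ0 : ℝ) ≤ Δ := by
      refine le_trans ?_ c5
      have h2 : (Δ0 : ℝ) ≤ 1 / (2 * (r : ℝ) + 1) * d := by
        rw [one_div, inv_mul_eq_div, le_div_iff₀ (by positivity)]
        linarith
      have h3 : 0 ≤ 2 * (2 * (m : ℝ) + 1) * dl * d := by positivity
      linarith
    exact_mod_cast h1
  have hmis : ∀ v (s : ZMod (2 * r + 1)), γ / 4 * (Δ : ℝ) ^ 2 ≤
      ((mis G0 ((nb G0 v).filter (fun w => w ∉ U ∧ (π w).2.2 = s))).card : ℝ) := by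
    intro v s
    rw [hsubeq, hnbc]
    have h1 := q7 v (univ.filter (fun a => a.2.2 = s)) ⟨(true, 0, s), by simp⟩
    have h2 : ((mis G (nb G v ∩ cls U π (univ.filter (fun a => a.2.2 = s)))).card : ℝ) ≤
        (mis G0 (nb G v ∩ cls U π (univ.filter (fun a => a.2.2 = s)))).card := by
      exact_mod_cast mis_mono hG0 _
    refine le_trans ?_ (h1.trans h2)
    rw [hPs]
    have e1 : 2 * (2 * (m : ℝ) + 1) * d / (2 * ((2 * m + 1) * (2 * r + 1))) =
        d / (2 * r + 1) := by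
      field_simp
    rw [e1]
    obtain ⟨x, hx⟩ : ∃ x : ℝ, x = (d : ℝ) / (2 * r + 1) := ⟨_, rfl⟩
    rw [← hx] at c6 ⊢
    have x0 : 0 < x := by rw [hx]; positivity
    have h3 : (Δ : ℝ) ≤ 11 / 10 * x := by
      refine c6.trans (mul_le_mul_of_nonneg_right (by linarith) x0.le)
    have h4 : (Δ : ℝ) ^ 2 ≤ (11 / 10 * x) ^ 2 := pow_le_pow_left₀ (Nat.cast_nonneg _) h3 2
    have h5 : (11 / 10 * x) ^ 2 ≤ 2 * x ^ 2 := by nlinarith [sq_nonneg x]
    have h6 : γ / 4 * (Δ : ℝ) ^ 2 ≤ γ / 4 * (2 * x ^ 2) :=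
      mul_le_mul_of_nonneg_left (h4.trans h5) (by positivity)
    linarith
  have hPal : ∀ s, (1 - κ) * Δ ≤ ((Pal s).card : ℝ) := by
    intro s
    rcases f13 s with h | h
    · refine c7.trans ?_
      exact_mod_cast h
    · refine c10.trans ?_
      exact_mod_cast h
  have hsub1' : ∀ v (s : ZMod (2 * r + 1)), (@Finset.filter V
      (fun w => w ∉ U ∧ (π w).2.2 = s) (fun _ => Classical.propDecidable _) (nb G0 v)).card ≤ Δ :=
    fun v s => by convert hsub1 v s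
  have hmis' : ∀ v (s : ZMod (2 * r + 1)), γ / 4 * (Δ : ℝ) ^ 2 ≤ ((mis G0 (@Finset.filter V
      (fun w => w ∉ U ∧ (π w).2.2 = s) (fun _ => Classical.propDecidable _)
      (nb G0 v))).card : ℝ) := fun v s => by convert hmis v s
  have hV2 := hV1 G0 U Δ k F (ZMod (2 * r + 1)) (fun v => (π v).2.2) Pal hΔlow
  obtain ⟨c, v1, v2, v3⟩ := hV2 (fun v s => by convert hsub1' v s) (fun v s => by
    convert hmis' v s) hF2 hU2 hPal f8
  -- the sides
  have hπ : ∀ v, v ∉ U → (sideF U τ π v, (π v).2.1, (π v).2.2) = π v := by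
    intro v hv
    rw [sideF_out hv]
  have hcls : ∀ P : Finset (Atom m r),
      cls U (fun v => (sideF U τ π v, (π v).2.1, (π v).2.2)) P = cls U π P := by
    intro P
    ext v
    rw [mem_cls, mem_cls]
    constructor
    · rintro ⟨h1, h2⟩
      rw [hπ v h1] at h2
      exact ⟨h1, h2⟩
    · rintro ⟨h1, h2⟩
      refine ⟨h1, ?_⟩
      rw [hπ v h1]
      exact h2
  have hUs : ∀ s, univ.filter (fun u => u ∈ U ∧ sideF U τ π u = s) =
      univ.filter (fun u => u ∈ U ∧ τ u = s) := by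
    intro s
    ext u
    simp only [mem_filter, mem_univ, true_and]
    constructor
    · rintro ⟨h1, h2⟩
      rw [sideF_in h1] at h2
      exact ⟨h1, h2⟩
    · rintro ⟨h1, h2⟩
      rw [sideF_in h1]
      exact ⟨h1, h2⟩
  have hU1' : ∀ v s, (univ.filter (fun u => u ∈ U ∧ G0.Adj v u ∧
      sideF U τ π u = s)).card ≤ 1 := by
    intro v s
    refine le_trans (card_le_card fun u hu => ?_) (hU1 v s)
    obtain ⟨a1, a2, a3⟩ := (mem_filter.1 hu).2
    rw [sideF_in a1] at a3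
    exact mem_filter.2 ⟨mem_univ _, a1, a2, a3⟩
  have hsides : (sd (sideF U τ π) true).card = (sd (sideF U τ π) false).card + p := by
    rw [sd_split, sd_split, card_union_of_disjoint (sd_disj _ _ _ _),
      card_union_of_disjoint (sd_disj _ _ _ _), out_card, out_card, hUeq, q3]
    ring
  have hK : ((univ.filter (fun u => u ∈ U ∧ τ u = true)).card : ℝ) * 2 = U.card := by
    have h1 : U = univ.filter (fun u => u ∈ U ∧ τ u = true) ∪
        univ.filter (fun u => u ∈ U ∧ τ u = false) := by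
      ext u
      simp only [mem_union, mem_filter, mem_univ, true_and]
      cases τ u <;> simp
    have h2 : U.card = (univ.filter (fun u => u ∈ U ∧ τ u = true)).card +
        (univ.filter (fun u => u ∈ U ∧ τ u = false)).card := by
      conv_lhs => rw [h1]
      refine card_union_of_disjoint ?_
      rw [Finset.disjoint_left]
      intro v hv hv'
      have a1 := (mem_filter.1 hv).2.2
      have a2 := (mem_filter.1 hv').2.2
      rw [a1] at a2
      exact absurd a2 (by decide)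
    rw [← hUeq] at h2
    have : (U.card : ℝ) = (univ.filter (fun u => u ∈ U ∧ τ u = true)).card +
        (univ.filter (fun u => u ∈ U ∧ τ u = true)).card := by exact_mod_cast h2
    linarith
  have hds : |(∑ v ∈ sd (sideF U τ π) true, ((nb G0 v).card : ℝ)) -
      (∑ v ∈ sd (sideF U τ π) false, ((nb G0 v).card : ℝ)) - (p : ℝ) * d| ≤
        dl * Fintype.card V := by
    rw [sd_split, sd_split, sum_union (sd_disj _ _ _ _), sum_union (sd_disj _ _ _ _)]
    have h1 : ∀ s, ∑ v ∈ univ.filter (fun v => v ∉ U ∧ (π v).1 = s), ((nb G0 v).card : ℝ) =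
        ∑ v ∈ univ.filter (fun v => v ∉ U ∧ (π v).1 = s), ((nb G v).card : ℝ) := by
      intro s
      refine sum_congr rfl fun v hv => ?_
      rw [hnb v (mem_filter.1 hv).2.1]
    rw [h1, h1]
    have h2 : ∀ s, ∑ v ∈ univ.filter (fun v => v ∈ U ∧ τ v = s), ((nb G0 v).card : ℝ) ≤
        ((univ.filter (fun v => v ∈ U ∧ τ v = s)).card : ℝ) * d := by
      intro s
      calc _ ≤ ∑ _v ∈ univ.filter (fun v => v ∈ U ∧ τ v = s), (d : ℝ) :=
            sum_le_sum fun v _ => hup0 v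
        _ = _ := by rw [sum_const, nsmul_eq_mul]
    have h3 : ∀ s, ((univ.filter (fun v => v ∈ U ∧ τ v = s)).card : ℝ) * ((1 - ε) * d - 1) ≤
        ∑ v ∈ univ.filter (fun v => v ∈ U ∧ τ v = s), ((nb G0 v).card : ℝ) := by
      intro s
      calc _ = ∑ _v ∈ univ.filter (fun v => v ∈ U ∧ τ v = s), ((1 - ε) * (d : ℝ) - 1) := by
            rw [sum_const, nsmul_eq_mul]
        _ ≤ _ := sum_le_sum fun v _ => hlow0 v
    obtain ⟨K, hKdef⟩ : ∃ K : ℝ, K = ((univ.filter (fun u => u ∈ U ∧ τ u = true)).card : ℝ) :=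
      ⟨_, rfl⟩
    have hKf : ((univ.filter (fun u => u ∈ U ∧ τ u = false)).card : ℝ) = K := by
      rw [hKdef, hUeq]
    have t1 := h2 true
    have t2 := h3 true
    have t3 := h2 false
    have t4 := h3 false
    rw [← hKdef] at t1 t2 hK
    rw [hKf] at t3 t4
    have K0 : 0 ≤ K := by rw [hKdef]; positivity
    have hKd : K * d ≤ 3 / 2 * Fintype.card V := by
      rw [← hK] at hUcard
      linarith
    have h4 : K * (ε * d + 1) ≤ dl / 2 * Fintype.card V := by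
      have h5 : ε * d + 1 ≤ dl / 5 * d := by
        norm_num at hdld
        linarith
      calc K * (ε * d + 1) ≤ K * (dl / 5 * d) := mul_le_mul_of_nonneg_left h5 K0
        _ = dl / 5 * (K * d) := by ring
        _ ≤ dl / 5 * (3 / 2 * Fintype.card V) :=
            mul_le_mul_of_nonneg_left hKd (by positivity)
        _ ≤ dl / 2 * Fintype.card V := by
            have : 0 ≤ dl * Fintype.card V := by positivity
            linarith
    have h6 : dl / 10 * d ≤ dl / 10 * Fintype.card V :=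
      mul_le_mul_of_nonneg_left hdN (by positivity)
    have h7 : 0 ≤ dl * (Fintype.card V : ℝ) := by positivity
    have a3 := abs_le.1 q5
    have e1 : K * ((1 - ε) * d - 1) = K * d - K * (ε * d + 1) := by ring
    rw [e1] at t2 t4
    rw [abs_le]
    constructor <;> linarith [a3.1, a3.2]
  have e3 : 2 * (2 * (m : ℝ) + 1) * (2 * r + 1) = 2 * ((2 * m + 1) * (2 * r + 1)) := by ring
  exact ⟨{
    g := g, dl := dl, u := u, w := w, N := N, p := p, side := sideF U τ π,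
    cell := fun v => (π v).2.1, sub := fun v => (π v).2.2, gi := gi, gj := gj, gs := gs, gk := gk,
    Ga := Ga, Pe := Pe, ty := ty, GS := GS, Pal := Pal, hm := hmm, c := c
    g0 := g0, g1 := g1, mbig := hmbig, rbig := hrbig, dl0 := dl0, dlsm := hdlsm.le
    dbig := hdbig
    n2 := by
      refine le_trans (mul_le_mul_of_nonneg_right ?_ D0.le) hn
      rw [hg]
      linarith
    kd := hk, ulo := c1, uhi := c2, disj := f1, gex := f2, glt := f3, ginj := f4
    Pem := fun τ => by rw [f5 τ]; exact c3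
    Pecard := by
      rw [f6]
      push_cast
      exact c4
    GScard := f7, Pald := f8, PalG := f9, PalL := f10, Palh := f11, hmw := f12, wub := c9
    cP := v1, cadj := v2, cF := v3
    F2 := hF2, F0 := hF0, UU := hUU, U2 := hU2, U1 := hU1'
    Ueq := by rw [hUs, hUs]; exact hUeq
    Ucard := hUcard
    deg := fun v => (hcard0 v).trans (hNR v).1
    degU := hdU
    degat := fun v a => by
      rw [hcls, hnbc, e3]
      refine (q4 v a).trans ?_
      have : 0 ≤ dl * (d : ℝ) := by positivity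
      linarith
    degsum := hds
    atN := fun a => by rw [hcls]; exact q1 a
    atle := fun i s => by rw [hcls, hcls]; exact q2 (i, s)
    p1 := p1, sides := hsides
    fi := fun P Q hPQ hP => by
      rw [hcls, hcls, e3, hg]
      exact FI_eq hG0 hnb (hclsU Q) (q6 P Q hPQ hP) }⟩

end Pool.Agent.Work.MP_db9399_exp.helper23
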